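import Pool.Agent.Lib.MP_dbb207_co.ChainGroup

/-!
The inequality of Ingleton fails for a matroid representable over a skew partial field, with the
definition of representability by chain groups.
-/

set_option autoImplicit false

namespace Pool.Agent.Results.MP_dbb207_co.ChainGroupForm

/-- `c` is an elementary chain of the chain group `C`: it is a nonzero chain and no nonzero chain has
strictly smaller support. -/
def IsElementary {R E : Type} [Ring R] (C : Submodule R (E → R)) (c : E → R) : Prop :=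
  c ∈ C ∧ c ≠ 0 ∧ ∀ c' ∈ C, c' ≠ 0 → ¬ Function.support c' ⊂ Function.support c

/-- `C` is an `(R, G)`-chain group: every elementary chain is a multiple `s • c'` of a chain `c'` of
`C` all of whose entries lie in `G` or are zero. -/
def IsChainGroup {R E : Type} [Ring R] (G : Subgroup Rˣ) (C : Submodule R (E → R)) : Prop :=
  ∀ c, IsElementary C c → ∃ (s : R) (c' : E → R), c' ∈ C ∧
    (∀ e, c' e = 0 ∨ ∃ g ∈ G, (g : R) = c' e) ∧ c = s • c'

/-- `M` is the matroid `M(C)`: its ground set is `E` and its cocircuits are the supports of the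
elementary chains. -/
def IsMatroidOf {R E : Type} [Ring R] (C : Submodule R (E → R)) (M : Matroid E) : Prop :=
  M.E = Set.univ ∧ ∀ X : Set E, M.IsCocircuit X ↔ ∃ c, IsElementary C c ∧ Function.support c = X

theorem result :
    ∃ (R : Type) (_ : Ring R) (G : Subgroup Rˣ) (E : Type) (_ : Fintype E)
      (C : Submodule R (E → R)) (M : Matroid E) (W X Y Z : Set E),
      (-1 : Rˣ) ∈ G ∧ IsChainGroup G C ∧ IsMatroidOf C M ∧
      M.eRk (W ∪ X) + M.eRk (W ∪ Y) + M.eRk (W ∪ Z) + M.eRk (X ∪ Y) + M.eRk (X ∪ Z) <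
        M.eRk W + M.eRk X + M.eRk (Y ∪ Z) + M.eRk (W ∪ X ∪ Y) + M.eRk (W ∪ X ∪ Z) := by
  by_contra hcon
  apply Pool.Agent.Lib.MP_dbb207_co.not_all False
  intro R iR iN G hG E iE r A hA M hME hM P Q S T
  by_contra hlt
  apply hcon
  refine ⟨R, iR, G, E, iE, Pool.Agent.Lib.MP_dbb207_co.ChainGroup.rows A, M, P, Q, S, T, hG, ?_,
    ⟨hME, ?_⟩, ?_⟩
  · intro c hc
    exact (Pool.Agent.Lib.MP_dbb207_co.ChainGroup.of_elem hA hM hc).2
  · intro X
    constructor
    · intro hX
      exact Pool.Agent.Lib.MP_dbb207_co.ChainGroup.elem_of_cocircuit hA hM hX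
    · rintro ⟨c, hc, rfl⟩
      exact (Pool.Agent.Lib.MP_dbb207_co.ChainGroup.of_elem hA hM hc).1
  · push Not at hlt
    refine hlt.trans_le (le_of_eq ?_)
    ring

end Pool.Agent.Results.MP_dbb207_co.ChainGroupForm
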